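import Pool.Agent.Helper51.CX.St

set_option autoImplicit false

/-!
# Project CX (MP_a41ee4_co). Module LB: assembly of the second step.
-/

namespace Pool.Agent.Helper60.CX

open Pool.Agent.Helper51.CX

section

variable {K : Type} [Field K] [LinearOrder K] [IsStrictOrderedRing K]

private theorem near_aux (s v x t : K) (hv : v = 1 ∨ v = -1) (ht : t = s * v)
    (h1 : 10 ^ 14 * |s - 1| ≤ 1) (h2 : 10 ^ 8 * |x| ≤ 1) : 10 ^ 6 * |v * (t + x) - 1| ≤ 1 := by
  have h3 : v * (t + x) - 1 = (s - 1) + v * x := by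
    rcases hv with h | h <;> rw [ht, h] <;> ring
  have h4 : |v * x| = |x| := by
    rcases hv with h | h <;> rw [h] <;> simp
  have h5 : |v * (t + x) - 1| ≤ |s - 1| + |x| := by
    rw [h3, ← h4]
    exact abs_add_le _ _
  linarith

end

theorem hLB : StRF → StB1M → StB1Y → StB2 → StB3 → StB4 → StBDP → StBDD → StLB := by
  intro hRF hB1M hB1Y hB2 hB3 hB4 hBDP hBDD K _ _ _ j k z d hS hC hF hLd hk hkj hLk
  have hlo := hS.lo
  have hhi := hS.hi
  have hLj : L j (z + d) = 10 ^ 60 := by rw [L_add, hS.tj, hLd, add_zero]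
  -- the far coordinate stays large
  have hfar : 49 * FF K j ≤ 100 * pp j (z + d) := by
    by_contra hcon
    have hcon' := not_le.1 hcon
    have hM := hB1M K j z d hS hF hLd hcon'
    have hY := hB1Y K j z d hS hF hLd hcon'
    have hR := (hRF K j hlo hhi d hC hLd 66 (fun k hk hkj hm => absurd hm (hM k hk hkj))).1
    rcases hR with h | h
    · exact absurd h.1 (lt_irrefl _)
    · exact hY h
  have hh : k = ga j ∨ k = gb j := hB2 K j (z + d) hlo hhi hF hLj hfar k hk hkj hLk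
  -- at most one member
  have h3 := hB3 K j k z d hS hF hLd hfar hh hLk
  have hk0 : ∃ k0 : ℕ, ∀ k < 66, k ≠ j → Mem k d → k = k0 := by
    by_cases h : ∃ k0 : ℕ, k0 < 66 ∧ k0 ≠ j ∧ Mem k0 d
    · obtain ⟨k0, a, b, c⟩ := h
      refine ⟨k0, fun k hk hkj hm => ?_⟩
      by_contra hne
      exact h3 k hk hkj k0 a b hne hm c
    · exact ⟨66, fun k hk hkj hm => absurd ⟨k, hk, hkj, hm⟩ h⟩
  obtain ⟨k0, hk0⟩ := hk0
  obtain ⟨_, hRa, hRb⟩ := hRF K j hlo hhi d hC hLd k0 hk0
  -- sizes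
  obtain ⟨s1, s2, s3, _⟩ := hBDP K j hlo hhi z hS.fe hS.tj
  obtain ⟨t1, t2, t3, _⟩ := hBDP K j hlo hhi (z + d) hF hLj
  have hd5 : 10 ^ 8 * |d 5| ≤ 1 := by
    have h5 := (hBDD K j hlo hhi d).1 hLd
    have h6 := nn_le z d
    have h7 := mm_le z d
    have h8 := le_abs_self (z 5 - 1)
    have h9 := le_abs_self ((z + d) 5 - 1)
    linarith
  have hda : ∀ a : Fin 6, (a = 2 ∨ a = 3 ∨ a = 4) → 10 ^ 8 * |d a| ≤ 1 := by
    intro a ha
    by_cases hMZ : MZ a d
    · have h5 : |d a| = |d 5| := hMZ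
      rw [h5]
      exact hd5
    · obtain ⟨p1, p2⟩ := hRa a ha
      rcases p1 with p1 | p1
      · rcases p2 with p2 | p2
        · refine hB4 K j k z d hS hF hLd hfar hh hLk k0 p1.1 p1.2.1 p1.2.2 p2 a ha ?_
          intro c hc hca
          rcases hRb c a hc ha hca with q | q
          · exact q
          · exact absurd q hMZ
        · exact absurd p2 hMZ
      · exact absurd p1 hMZ
  obtain ⟨_, g1, g2, g3, _⟩ := sgn (K := K) j hlo hhi
  refine ⟨hlo, hhi, hh, hF, hLj, hLk, hfar, ?_, ?_, ?_⟩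
  · have h := near_aux (z 5) (v1 j : K) (d 2) (z 2) g1 hS.e2 s1 (hda 2 (Or.inl rfl))
    simpa only [Pi.add_apply] using h
  · have h := near_aux (z 5) (v2 j : K) (d 3) (z 3) g2 hS.e3 s1 (hda 3 (Or.inr (Or.inl rfl)))
    simpa only [Pi.add_apply] using h
  · have h := near_aux (z 5) (v3 j : K) (d 4) (z 4) g3 hS.e4 s1 (hda 4 (Or.inr (Or.inr rfl)))
    simpa only [Pi.add_apply] using h

end Pool.Agent.Helper60.CX
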